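import Pool.Agent.Helper35.HG.StE

/-! Project HG, module PQ1 of helper35. -/

set_option autoImplicit false

namespace Pool.Agent.Helper16.HG

open _root_.Helper35.HG _root_.Helper35.HC _root_.Helper35.HSF _root_.Helper35.MS
open _root_.Helper35.PI _root_.Helper35.PI2 _root_.Helper32.CL

/-- the parameter `t = hh X` -/
theorem base (X : ℝ) (h0 : 0 ≤ X) (h1 : X ≤ 7 / 4) :
    ∃ t : ℝ, hh X = t ∧ 149 / 1000 ≤ t ∧ t ≤ 1 ∧ 0 < t ∧ X = 4 / 13 * (1 - t) / t ∧
      263 / 1000 + 23 / 100 * X + 17 / 100 * t ≤ 691 / 1000 := by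
  have hp : 0 < 1 + 13 / 4 * X := by linarith
  have ht : 0 < 1 / (1 + 13 / 4 * X) := by positivity
  refine ⟨hh X, rfl, ?_, ?_, ?_, ?_, ?_⟩
  · unfold hh
    rw [le_div_iff₀ hp]
    linarith
  · unfold hh
    rw [div_le_iff₀ hp]
    linarith
  · exact ht
  · unfold hh
    field_simp
    ring
  · unfold hh
    have h2 : (23 / 100 * X - 428 / 1000) * (1 + 13 / 4 * X) + 17 / 100 ≤ 0 := by
      nlinarith [mul_nonneg h0 (sub_nonneg.mpr h1)]
    have h3 : 17 / 100 * (1 / (1 + 13 / 4 * X)) ≤ 428 / 1000 - 23 / 100 * X := by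
      rw [mul_one_div, div_le_iff₀ hp]
      linarith
    linarith

/-- completing the square -/
theorem nonpos_of_square (T k a q : ℝ) (hk : 0 < k) (ha : 0 ≤ a) (h : k * (T + a * q ^ 2) ≤ 0) :
    T ≤ 0 := by
  have h1 : T + a * q ^ 2 ≤ 0 := by
    by_contra hc
    push Not at hc
    have := mul_pos hk hc
    linarith
  have h2 : 0 ≤ a * q ^ 2 := by positivity
  linarith

theorem nonpos_of_mul (T k : ℝ) (hk : 0 < k) (h : k * T ≤ 0) : T ≤ 0 := by
  by_contra hc
  push Not at hc
  have := mul_pos hk hc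
  linarith

theorem quad_mono (C b a z z0 : ℝ) (ha : 0 ≤ a) (hz : z0 ≤ z) (hb : b ≤ 2 * a * z0) :
    C + b * z - a * z ^ 2 ≤ C + b * z0 - a * z0 ^ 2 := by
  have h1 : 0 ≤ a * (z - z0) := mul_nonneg ha (sub_nonneg.mpr hz)
  nlinarith [mul_nonneg (sub_nonneg.mpr hz) (sub_nonneg.mpr hb),
    mul_nonneg (sub_nonneg.mpr hz) h1]

theorem T8_nonpos (X z g : ℝ) (h0 : 0 ≤ X) (h1 : X ≤ 7 / 4) (hg : 0 ≤ g)
    (hz : 4 / 3 * (g * (g + 2)) ≤ z) : T8 X z g ≤ 0 := by
  obtain ⟨t, hh1, ht1, ht2, ht0, hX, hJ⟩ := base X h0 h1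
  have hg1 : 0 < 1 + g := by linarith
  rcases le_total g (1 / 8) with h8 | h8
  · have hi := Poly.i8 t g ht1 ht2 hg h8
    refine nonpos_of_square (T8 X z g) (t ^ 2) (12488 / 10000 / (1 + g))
      (z - (736 / 1000 * (263 / 1000 + 23 / 100 * X + 17 / 100 * t) + 323 / 10000
        + 2208 / 10000 * g) * (1 + g) / (2 * (12488 / 10000))) (by positivity) (by positivity) ?_
    refine le_trans (le_of_eq ?_) hi
    simp only [T8, Mf, Jf, Lf, hh1]
    rw [hX]
    field_simp
    ring
  · set z0 : ℝ := 4 / 3 * (g * (g + 2)) with hz0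
    have hq := quad_mono (T8 X 0 g) (736 / 1000 * (263 / 1000 + 23 / 100 * X + 17 / 100 * t)
      + 323 / 10000 + 2208 / 10000 * g) (12488 / 10000 / (1 + g)) z z0 (by positivity) hz (by
        have h3 : (541 / 1000 + 2208 / 10000 * g) * (1 + g)
            ≤ 2 * (12488 / 10000) * (4 / 3 * (g * (g + 2))) := by
          nlinarith
        have h4 : 541 / 1000 + 2208 / 10000 * g
            ≤ 2 * (12488 / 10000 / (1 + g)) * (4 / 3 * (g * (g + 2))) := by
          have h5 : 2 * (12488 / 10000 / (1 + g)) * (4 / 3 * (g * (g + 2)))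
              = 2 * (12488 / 10000) * (4 / 3 * (g * (g + 2))) / (1 + g) := by
            field_simp
          rw [h5, le_div_iff₀ hg1]
          exact h3
        rw [hz0]
        linarith)
    have e1 : T8 X z g = T8 X 0 g + (736 / 1000 * (263 / 1000 + 23 / 100 * X + 17 / 100 * t)
      + 323 / 10000 + 2208 / 10000 * g) * z - 12488 / 10000 / (1 + g) * z ^ 2 := by
      simp only [T8, Jf, hh1]
      ring
    have e2 : t * (1 + g) * (T8 X 0 g + (736 / 1000 * (263 / 1000 + 23 / 100 * X + 17 / 100 * t)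
      + 323 / 10000 + 2208 / 10000 * g) * z0 - 12488 / 10000 / (1 + g) * z0 ^ 2) ≤ 0 := by
      have hj : -669931/26000000 + 18011327/78000000*g + 13249/40625*g^2 + 8464/121875*g^3 -
          68761/130000000*t + 95497237/390000000*t*g - 56543561/7312500*t*g^2 -
          28092601/3656250*t*g^3 - 10832/5625*t*g^4 - 296293/6500000*t^2 + 8401961/19500000*t^2*g +
          8041/12500*t^2*g^2 + 1564/9375*t^2*g^3 - 638197/6500000*t^3 - 903397/6500000*t^3*g -
          51/1250*t^3*g^2 - 289/12500*t^4 - 289/12500*t^4*g ≤ 0 := by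
        rcases le_total g 1 with h9 | h9
        · exact Poly.j8 t g ht1 ht2 h8 h9
        · exact Poly.k8 t g ht1 ht2 h9
      refine le_trans (le_of_eq ?_) hj
      rw [hz0]
      simp only [T8, Mf, Jf, Lf, hh1]
      rw [hX]
      field_simp
      ring
    have e3 := nonpos_of_mul _ _ (by positivity) e2
    rw [e1]
    linarith

theorem T0_nonpos (X z g : ℝ) (h0 : 0 ≤ X) (h1 : X ≤ 7 / 4) (hg : 0 ≤ g)
    (hz : 4 / 3 * (g * (g + 2)) ≤ z) : T0 X z g ≤ 0 := by
  obtain ⟨t, hh1, ht1, ht2, ht0, hX, hJ⟩ := base X h0 h1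
  have hg1 : 0 < 1 + g := by linarith
  rcases le_total g (1 / 8) with h8 | h8
  · have hi := Poly.i0 t g ht1 ht2 hg h8
    refine nonpos_of_square (T0 X z g) (t ^ 2) (12488 / 10000 / (1 + g))
      (z - (92 / 100 * (263 / 1000 + 23 / 100 * X + 17 / 100 * t) + 323 / 10000
        + 276 / 1000 * g) * (1 + g) / (2 * (12488 / 10000))) (by positivity) (by positivity) ?_
    refine le_trans (le_of_eq ?_) hi
    simp only [T0, Mf, Jf, Lf, hh1]
    rw [hX]
    field_simp
    ring
  · set z0 : ℝ := 4 / 3 * (g * (g + 2)) with hz0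
    have hq := quad_mono (T0 X 0 g) (92 / 100 * (263 / 1000 + 23 / 100 * X + 17 / 100 * t)
      + 323 / 10000 + 276 / 1000 * g) (12488 / 10000 / (1 + g)) z z0 (by positivity) hz (by
        have h3 : (669 / 1000 + 276 / 1000 * g) * (1 + g)
            ≤ 2 * (12488 / 10000) * (4 / 3 * (g * (g + 2))) := by
          nlinarith
        have h4 : 669 / 1000 + 276 / 1000 * g
            ≤ 2 * (12488 / 10000 / (1 + g)) * (4 / 3 * (g * (g + 2))) := by
          have h5 : 2 * (12488 / 10000 / (1 + g)) * (4 / 3 * (g * (g + 2)))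
              = 2 * (12488 / 10000) * (4 / 3 * (g * (g + 2))) / (1 + g) := by
            field_simp
          rw [h5, le_div_iff₀ hg1]
          exact h3
        rw [hz0]
        linarith)
    have e1 : T0 X z g = T0 X 0 g + (92 / 100 * (263 / 1000 + 23 / 100 * X + 17 / 100 * t)
      + 323 / 10000 + 276 / 1000 * g) * z - 12488 / 10000 / (1 + g) * z ^ 2 := by
      simp only [T0, Jf, hh1]
      ring
    have e2 : t * (1 + g) * (T0 X 0 g + (92 / 100 * (263 / 1000 + 23 / 100 * X + 17 / 100 * t)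
      + 323 / 10000 + 276 / 1000 * g) * z0 - 12488 / 10000 / (1 + g) * z0 ^ 2) ≤ 0 := by
      have hj : -766877/20800000 + 14955689/62400000*g + 11809/32500*g^2 + 2116/24375*g^3 -
          5350387/104000000*t + 61704359/312000000*t*g - 22222013/2925000*t*g^2 -
          21874571/2925000*t*g^3 - 10418/5625*t*g^4 - 307887/2600000*t^2 + 2528359/7800000*t^2*g +
          6511/10000*t^2*g^2 + 391/1875*t^2*g^3 - 153/1300*t^3 - 153/1300*t^3*g ≤ 0 := by
        rcases le_total g 1 with h9 | h9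
        · exact Poly.j0 t g ht1 ht2 h8 h9
        · exact Poly.k0 t g ht1 ht2 h9
      refine le_trans (le_of_eq ?_) hj
      rw [hz0]
      simp only [T0, Mf, Jf, Lf, hh1]
      rw [hX]
      field_simp
      ring
    have e3 := nonpos_of_mul _ _ (by positivity) e2
    rw [e1]
    linarith

/-- module PQ1 -/
theorem hPQ1 : StPQ1 := by
  intro X z g h0 h1 hg hz
  exact ⟨T8_nonpos X z g h0 h1 hg hz, T0_nonpos X z g h0 h1 hg hz⟩

end Pool.Agent.Helper16.HG
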