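import Pool.Agent.Helper80.HG.St

/-!
# Project HG (MP_1bacb5_al): module QT, passing to a faithful action
-/

set_option autoImplicit false

namespace Pool.Agent.Helper16.HG

open Pool.Agent.Helper80.HG Filter Topology Asymptotics Pool.Agent.Helper58.RK
open scoped commutatorElement

/-- special rank passes to images -/
theorem srank_of_surjective {G K : Type*} [Group G] [Group K] (f : G →* K) (hf : Function.Surjective f) (r : ℕ)
    (h : SRank G r) : SRank K r := by
  classical
  intro L hL
  obtain ⟨S, hS⟩ := hL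
  choose g hg using hf
  obtain ⟨s, hs, hcl⟩ := h (Subgroup.closure ((S.image g : Finset G) : Set G)) ⟨S.image g, rfl⟩
  refine ⟨s.image f, Finset.card_image_le.trans hs, ?_⟩
  rw [Finset.coe_image, ← MonoidHom.map_closure, hcl, MonoidHom.map_closure, Finset.coe_image, ← Set.image_comp]
  have h1 : (f ∘ g) = id := funext hg
  rw [h1, Set.image_id, hS]

/-- module QT -/
theorem hQT : StQT := by
  intro H hB Γ _ θ r hR hS
  let N : Subgroup Γ :=
    { carrier := {g | Tr θ g}
      mul_mem' := fun {a b} ha hb => hR.tmul a b ha hb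
      one_mem' := hR.one
      inv_mem' := fun {a} ha => hR.tinv a ha }
  have hmem : ∀ g : Γ, g ∈ N ↔ Tr θ g := fun g => Iff.rfl
  haveI hN : N.Normal := ⟨fun n hn g => hR.tconj g n hn⟩
  have key : ∀ g h : Γ, (QuotientGroup.mk g : Γ ⧸ N) = QuotientGroup.mk h → ∀ᶠ x in atTop, θ h x = θ g x := by
    intro g h hgh
    have h2 : Tr θ (g⁻¹ * h) := (hmem _).1 (QuotientGroup.eq.1 hgh)
    have h3 := hR.mul g (g⁻¹ * h)
    rw [mul_inv_cancel_left] at h3
    filter_upwards [h2, h3] with x hx hx'
    rw [hx', hx]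
  have hout : ∀ q : Γ ⧸ N, (QuotientGroup.mk (Quotient.out q) : Γ ⧸ N) = q := fun q => QuotientGroup.out_eq' q
  refine ⟨Γ ⧸ N, inferInstance, QuotientGroup.mk' N, fun q => θ (Quotient.out q), ?_, ?_, ?_, ?_⟩
  · refine ⟨fun q => hR.mem _, fun q => hR.top _, ?_, ?_⟩
    · have h1 := key 1 (Quotient.out (1 : Γ ⧸ N)) (by rw [hout]; rfl)
      filter_upwards [h1, hR.one] with x hx hx'
      rw [hx, hx']
    · intro q q'
      have h1 := key (Quotient.out q * Quotient.out q') (Quotient.out (q * q'))
        (by rw [hout, QuotientGroup.mk_mul, hout, hout])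
      filter_upwards [h1, hR.mul (Quotient.out q) (Quotient.out q')] with x hx hx'
      rw [hx, hx']
  · intro q hq
    have h1 : Quotient.out q ∈ N := (hmem _).2 hq
    have h2 := (QuotientGroup.eq_one_iff (Quotient.out q)).2 h1
    rw [hout] at h2
    exact h2
  · exact srank_of_surjective (QuotientGroup.mk' N) (QuotientGroup.mk'_surjective N) r hS
  · intro g hg
    exact (hmem _).1 ((QuotientGroup.eq_one_iff g).1 hg)

end Pool.Agent.Helper16.HG
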